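import Pool.Agent.K3h30.RS.Stm4

/-!
# Extension of `G`-homomorphisms to `ℤ[G]` (helper11)
-/

set_option autoImplicit false

noncomputable section

namespace Pool.Agent.K3h11.RS

open Pool.Agent.K3h30.RS

/-- extension of homomorphisms to `ℤ` from a subgroup with torsion free quotient -/
theorem ext_int {A B : Type} [AddCommGroup A] [AddCommGroup B] [AddGroup.FG B] (i : A →+ B)
    (hi : Function.Injective i)
    (hs : ∀ (b : B) (n : ℕ), 0 < n → (∃ a, i a = n • b) → ∃ a, i a = b) (f : A →+ ℤ) :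
    ∃ g : B →+ ℤ, ∀ a, g (i a) = f a := by
  have : Module.Finite ℤ B := Module.Finite.iff_addGroup_fg.mpr inferInstance
  let il : A →ₗ[ℤ] B := i.toIntLinearMap
  let N : Submodule ℤ B := LinearMap.range il
  have hN : ∀ b, b ∈ N ↔ ∃ a, i a = b := fun b => Iff.rfl
  have : Module.IsTorsionFree ℤ (B ⧸ N) := by
    refine Module.IsTorsionFree.of_smul_eq_zero fun n x hx => ?_
    obtain ⟨b, rfl⟩ := N.mkQ_surjective x
    by_cases hn : n = 0
    · exact Or.inl hn
    right
    have h1 : n • b ∈ N := by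
      rw [← Submodule.Quotient.mk_eq_zero, Submodule.Quotient.mk_smul]
      exact hx
    have h2 : (n.natAbs) • b ∈ N := by
      rcases Int.natAbs_eq n with h | h
      · rw [h, natCast_zsmul] at h1
        exact h1
      · rw [h, neg_smul, natCast_zsmul, N.neg_mem_iff] at h1
        exact h1
    rw [Submodule.mkQ_apply, Submodule.Quotient.mk_eq_zero, hN]
    exact hs b _ (Int.natAbs_pos.2 hn) ((hN _).1 h2)
  have : Module.Free ℤ (B ⧸ N) := Module.free_of_finite_type_torsion_free'
  obtain ⟨s, hs⟩ := Module.projective_lifting_property N.mkQ (LinearMap.id : (B ⧸ N) →ₗ[ℤ] _)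
    N.mkQ_surjective
  let e : A ≃ₗ[ℤ] N := LinearEquiv.ofInjective il hi
  let ρ : B →ₗ[ℤ] N := LinearMap.codRestrict N (LinearMap.id - s ∘ₗ N.mkQ) (by
    intro b
    have h1 := LinearMap.congr_fun hs (N.mkQ b)
    simp only [LinearMap.comp_apply, LinearMap.id_apply] at h1
    refine (Submodule.Quotient.mk_eq_zero N).1 ?_
    change N.mkQ (b - s (N.mkQ b)) = 0
    rw [map_sub, h1, sub_self])
  refine ⟨(f.toIntLinearMap ∘ₗ e.symm.toLinearMap ∘ₗ ρ).toAddMonoidHom, fun a => ?_⟩
  have h1 : ρ (i a) = e a := by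
    apply Subtype.ext
    change i a - s (N.mkQ (i a)) = i a
    have h2 : N.mkQ (i a) = 0 := by
      rw [Submodule.mkQ_apply, Submodule.Quotient.mk_eq_zero, hN]
      exact ⟨a, rfl⟩
    rw [h2, map_zero, sub_zero]
  change f (e.symm (ρ (i a))) = f a
  rw [h1, LinearEquiv.symm_apply_apply]

theorem t_EXTG : S_EXTG := by
  classical
  intro H G _ _ _ _ U U' hle hU hU' hfg hsat ψ
  have := Fintype.ofFinite G
  have act_one : ∀ x : Hˣ, act (1 : G) x = x := by
    intro x; ext; simp [act]
  have act_mul : ∀ (γ γ' : G) (x : Hˣ), act (γ * γ') x = act γ (act γ' x) := by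
    intro γ γ' x; ext; simp [act, mul_smul]
  -- the coefficient at `1`
  let ψ1 : Additive U →+ ℤ :=
    { toFun := fun b => (ψ.f b).coeff 1
      map_zero' := by simp
      map_add' := fun a b => by simp }
  let i : Additive U →+ Additive U' := MonoidHom.toAdditive (Subgroup.inclusion hle)
  have hi : Function.Injective i := Subgroup.inclusion_injective hle
  have hs : ∀ (b : Additive U') (n : ℕ), 0 < n → (∃ a, i a = n • b) → ∃ a, i a = b := by
    rintro b n hn ⟨a, ha⟩
    have h1 : ((Additive.toMul b : U') : Hˣ) ^ n ∈ U := by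
      have h2 : (((Additive.toMul a : U) : Hˣ)) = ((Additive.toMul b : U') : Hˣ) ^ n :=
        congrArg (fun z : Additive U' => ((Additive.toMul z : U') : Hˣ)) ha
      rw [← h2]
      exact (Additive.toMul a).2
    have h3 := hsat _ (Additive.toMul b).2 n hn h1
    exact ⟨Additive.ofMul ⟨_, h3⟩, rfl⟩
  obtain ⟨g, hg⟩ := ext_int i hi hs ψ1
  -- the action
  let T : G → Additive U' →+ Additive U' := fun γ => MonoidHom.toAdditive
    { toFun := fun x => ⟨act γ (x : Hˣ), hU' γ x x.2⟩
      map_one' := Subtype.ext (map_one _)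
      map_mul' := fun x y => Subtype.ext (map_mul _ _ _) }
  have hTT : ∀ (γ γ' : G) (x : Additive U'), T γ (T γ' x) = T (γ * γ') x := by
    intro γ γ' x
    exact (congrArg Additive.ofMul (Subtype.ext (act_mul γ γ' _))).symm
  let F : Additive U' →+ MonoidAlgebra ℤ G :=
    { toFun := fun x => ∑ γ : G, MonoidAlgebra.single γ (g (T γ⁻¹ x))
      map_zero' := by simp
      map_add' := fun x y => by
        rw [← Finset.sum_add_distrib]
        refine Finset.sum_congr rfl fun γ _ => ?_
        rw [map_add, map_add, MonoidAlgebra.single_add] }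
  refine ⟨⟨F, ?_⟩, ?_⟩
  · intro γ x y hxy
    have hy : Additive.ofMul y = T γ (Additive.ofMul x) :=
      congrArg Additive.ofMul (Subtype.ext hxy)
    rw [hy]
    change ∑ δ : G, MonoidAlgebra.single δ (g (T δ⁻¹ (T γ (Additive.ofMul x)))) =
      MonoidAlgebra.single γ 1 * ∑ δ : G, MonoidAlgebra.single δ (g (T δ⁻¹ (Additive.ofMul x)))
    rw [Finset.mul_sum]
    refine (Fintype.sum_equiv (Equiv.mulLeft γ) _ _ fun δ => ?_).symm
    rw [MonoidAlgebra.single_mul_single, one_mul, Equiv.coe_mulLeft, hTT, mul_inv_rev,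
      inv_mul_cancel_right]
  · intro x
    change ∑ δ : G, MonoidAlgebra.single δ (g (T δ⁻¹ (i (Additive.ofMul x)))) =
      ψ.f (Additive.ofMul x)
    ext δ
    rw [MonoidAlgebra.coeff_sum, Finsupp.finsetSum_apply, Finset.sum_eq_single δ]
    · rw [MonoidAlgebra.coeff_single, Finsupp.single_eq_same]
      have h1 : T δ⁻¹ (i (Additive.ofMul x)) =
          i (Additive.ofMul ⟨act δ⁻¹ (x : Hˣ), hU δ⁻¹ x x.2⟩) := rfl
      rw [h1, hg]
      have h2 := ψ.equiv δ⁻¹ x ⟨act δ⁻¹ (x : Hˣ), hU δ⁻¹ x x.2⟩ rfl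
      change (ψ.f _).coeff 1 = _
      rw [h2, MonoidAlgebra.coeff_single_mul_apply, one_mul, inv_inv, mul_one]
    · intro b _ hb
      rw [MonoidAlgebra.coeff_single, Finsupp.single_apply, if_neg hb]
    · intro h
      exact absurd (Finset.mem_univ δ) h

end Pool.Agent.K3h11.RS
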